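import Mathlib

/-!
# FIN, blocks G1, G2: counting generators

`acl61`: the elements algebraic over the field generated by a set `T` form a subfield `F` of `K`, algebraically closed in `K`; it contains at
most `|T|` algebraically independent elements.
-/

set_option autoImplicit false

namespace Pool.Agent.FIN

open Polynomial

theorem acl61 {K : Type*} [Field K] [CharZero K] (T : Set K) : ∃ F : Subfield K, T ⊆ (F : Set K) ∧
    (∀ p : K[X], p ≠ 0 → (∀ i, p.coeff i ∈ F) → ∀ z, p.eval z = 0 → z ∈ F) ∧
    ∀ (ι : Type) [Fintype ι] (a : ι → K), AlgebraicIndependent ℤ a → (∀ i, a i ∈ F) →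
      (Fintype.card ι : ℕ∞) ≤ T.encard := by
  classical
  set M := AlgebraicIndependent.matroid ℤ K with hM
  have hmem : ∀ {s : Set K} {z : K}, z ∈ M.closure s ↔ IsAlgebraic (Algebra.adjoin ℤ s) z := by
    intro s z
    rw [hM, AlgebraicIndependent.matroid_closure_eq]
    exact Iff.rfl
  let F : Subfield K :=
    { carrier := M.closure T
      mul_mem' := fun {a b} ha hb => hmem.2 ((hmem.1 ha).mul (hmem.1 hb))
      one_mem' := hmem.2 isAlgebraic_one
      add_mem' := fun {a b} ha hb => hmem.2 ((hmem.1 ha).add (hmem.1 hb))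
      zero_mem' := hmem.2 isAlgebraic_zero
      neg_mem' := fun {a} ha => hmem.2 (hmem.1 ha).neg
      inv_mem' := fun a ha => hmem.2 (IsAlgebraic.inv_iff.2 (hmem.1 ha)) }
  have hF : ∀ {z : K}, z ∈ F ↔ z ∈ M.closure T := fun {z} => Iff.rfl
  refine ⟨F, M.subset_closure T (by rw [hM, AlgebraicIndependent.matroid_e]; exact Set.subset_univ _), ?_, ?_⟩
  · intro p hp hc z hz
    rw [hF, ← M.closure_closure T, hmem]
    set A := Algebra.adjoin ℤ (M.closure T) with hA
    have hsub : ∀ i, p.coeff i ∈ A := fun i => Algebra.subset_adjoin (hc i)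
    obtain ⟨q, hq⟩ : ∃ q : A[X], q.map (algebraMap A K) = p := by
      rw [← Polynomial.mem_lifts, Polynomial.lifts_iff_coeff_lifts]
      exact fun i => ⟨⟨p.coeff i, hsub i⟩, rfl⟩
    refine ⟨q, ?_, ?_⟩
    · rintro rfl
      rw [Polynomial.map_zero] at hq
      exact hp hq.symm
    · rw [← hq, Polynomial.eval_map] at hz
      exact hz
  · intro ι _ a ha haF
    have h1 : M.Indep (Set.range a) := ha.coe_range
    have h2 : M.eRk (Set.range a) = (Fintype.card ι : ℕ∞) := by
      rw [h1.eRk_eq_encard, ← Set.image_univ, ha.injective.encard_image, Set.encard_univ, ENat.card_eq_coe_fintype_card]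
    rw [← h2]
    calc M.eRk (Set.range a) ≤ M.eRk (M.closure T) := M.eRk_mono (by
          rintro _ ⟨i, rfl⟩
          exact haF i)
      _ = M.eRk T := M.eRk_closure_eq T
      _ ≤ T.encard := M.eRk_le_encard T

end Pool.Agent.FIN
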