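import Pool.Agent.Helper97.FIN.Defs
import Pool.Agent.Helper61.FIN.Tool

/-!
# FIN, block G1: two disjoint families of points, generic linear forms

The coordinates of the forms are algebraic over the field generated by the `2 p n` affine coordinates of the points, the factor `c`, and all but
`2 |G| + |V|` of the coordinates of the forms.
-/

set_option autoImplicit false

namespace Pool.Agent.FIN

open Pool.Agent.GS Polynomial

universe u

/-- a form which vanishes at two points -/
private theorem two61 {K : Type*} [Field K] {n : ℕ} (F : Subfield K) (L y z : Fin (n + 1) → K) (u v : Fin (n + 1))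
    (huv : y u * z v ≠ y v * z u) (hy : ∀ m, y m ∈ F) (hz : ∀ m, z m ∈ F) (h1 : dt L y = 0) (h2 : dt L z = 0)
    (hL : ∀ m, m ≠ u → m ≠ v → L m ∈ F) : L u ∈ F ∧ L v ∈ F := by
  classical
  have hne : u ≠ v := by
    rintro rfl
    exact huv rfl
  have hsplit : ∀ x : Fin (n + 1) → K, dt L x = L u * x u + (L v * x v + ∑ m ∈ (Finset.univ.erase u).erase v, L m * x m) := by
    intro x
    unfold dt
    rw [← Finset.add_sum_erase _ _ (Finset.mem_univ u),
      ← Finset.add_sum_erase _ _ (Finset.mem_erase.2 ⟨hne.symm, Finset.mem_univ v⟩)]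
  have hmem : ∀ x : Fin (n + 1) → K, (∀ m, x m ∈ F) → ∑ m ∈ (Finset.univ.erase u).erase v, L m * x m ∈ F := by
    intro x hx
    refine F.sum_mem fun m hm => F.mul_mem (hL m ?_ (Finset.ne_of_mem_erase hm)) (hx m)
    exact Finset.ne_of_mem_erase (Finset.mem_of_mem_erase hm)
  have hA := hmem y hy
  have hB := hmem z hz
  rw [hsplit] at h1 h2
  set A := ∑ m ∈ (Finset.univ.erase u).erase v, L m * y m
  set B := ∑ m ∈ (Finset.univ.erase u).erase v, L m * z m
  have hd : y u * z v - y v * z u ≠ 0 := sub_ne_zero.2 huv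
  have hdF : y u * z v - y v * z u ∈ F := F.sub_mem (F.mul_mem (hy u) (hz v)) (F.mul_mem (hy v) (hz u))
  constructor
  · have h3 : L u = (B * y v - A * z v) / (y u * z v - y v * z u) := by
      rw [eq_div_iff hd]
      linear_combination z v * h1 - y v * h2
    rw [h3]
    exact F.div_mem (F.sub_mem (F.mul_mem hB (hy v)) (F.mul_mem hA (hz v))) hdF
  · have h3 : L v = (A * z u - B * y u) / (y u * z v - y v * z u) := by
      rw [eq_div_iff hd]
      linear_combination y u * h2 - z u * h1
    rw [h3]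
    exact F.div_mem (F.sub_mem (F.mul_mem hA (hz u)) (F.mul_mem hB (hy u))) hdF

private theorem lift61 {K : Type*} [Field K] (F : Subfield K) {ι : Type*} (s : Finset ι) (A y : ι → K) (hA : ∀ a ∈ s, A a ∈ F)
    (hy : ∀ a ∈ s, y a ∈ F) : ∏ a ∈ s, (C (A a) + X * C (y a)) ∈ Polynomial.lifts F.subtype := by
  refine prod_mem fun a ha => add_mem ?_ (mul_mem (Polynomial.X_mem_lifts _) ?_)
  · exact ⟨C ⟨A a, hA a ha⟩, by simp⟩
  · exact ⟨C ⟨y a, hy a ha⟩, by simp⟩

/-- a form with proportional products of values -/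
private theorem one61 {K : Type*} [Field K] {n p : ℕ} (L : Fin (n + 1) → K) (y z : Fin p → Fin (n + 1) → K) (c : K) (hc : c ≠ 0)
    (a₀ : Fin p) (l : Fin (n + 1)) (h0 : y a₀ l = 1) (hne : ∀ b, ∃ m, z b m ≠ z b l * y a₀ m)
    (h : ∏ a, dt L (y a) = c * ∏ b, dt L (z b)) :
    ∃ w, ∀ F : Subfield K, (∀ p : K[X], p ≠ 0 → (∀ i, p.coeff i ∈ F) → ∀ z, p.eval z = 0 → z ∈ F) →
      (∀ a m, y a m ∈ F) → (∀ a m, z a m ∈ F) → c ∈ F → (∀ m, m ≠ w → L m ∈ F) → L w ∈ F := by
  classical
  have hsplit : ∀ x : Fin (n + 1) → K, dt L x = ∑ m ∈ Finset.univ.erase l, L m * x m + L l * x l := by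
    intro x
    unfold dt
    rw [Finset.sum_erase_add _ _ (Finset.mem_univ l)]
  set A : Fin p → K := fun a => ∑ m ∈ Finset.univ.erase l, L m * y a m with hA
  set B : Fin p → K := fun b => ∑ m ∈ Finset.univ.erase l, L m * z b m with hB
  set P : K[X] := ∏ a, (C (A a) + X * C (y a l)) - C c * ∏ b, (C (B b) + X * C (z b l)) with hP
  have heval : ∀ t, P.eval t = ∏ a, (A a + t * y a l) - c * ∏ b, (B b + t * z b l) := by
    intro t
    rw [hP]
    simp only [Polynomial.eval_sub, Polynomial.eval_prod, Polynomial.eval_add, Polynomial.eval_mul, Polynomial.eval_C,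
      Polynomial.eval_X]
  by_cases hP0 : P = 0
  · have h1 := heval (-A a₀)
    rw [hP0, Polynomial.eval_zero, Finset.prod_eq_zero (Finset.mem_univ a₀) (by rw [h0]; ring), zero_sub, eq_comm,
      neg_eq_zero] at h1
    have h2 := (mul_eq_zero.1 h1).resolve_left hc
    obtain ⟨b, -, hb⟩ := Finset.prod_eq_zero_iff.1 h2
    obtain ⟨m₀, hm₀⟩ := hne b
    have hml : m₀ ≠ l := by
      rintro rfl
      apply hm₀
      rw [h0, mul_one]
    refine ⟨m₀, fun F _ hy hz _ hL => ?_⟩
    have h3 : ∑ m ∈ Finset.univ.erase l, L m * (z b m - z b l * y a₀ m) = 0 := by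
      have h4 : ∑ m ∈ Finset.univ.erase l, L m * (z b m - z b l * y a₀ m) = B b - z b l * A a₀ := by
        simp only [hA, hB]
        rw [Finset.mul_sum, ← Finset.sum_sub_distrib]
        exact Finset.sum_congr rfl fun m _ => by ring
      rw [h4]
      linear_combination hb
    rw [← Finset.add_sum_erase _ _ (Finset.mem_erase.2 ⟨hml, Finset.mem_univ m₀⟩)] at h3
    have hd : z b m₀ - z b l * y a₀ m₀ ≠ 0 := sub_ne_zero.2 hm₀
    have h5 : L m₀ = (-∑ m ∈ (Finset.univ.erase l).erase m₀, L m * (z b m - z b l * y a₀ m)) / (z b m₀ - z b l * y a₀ m₀) := by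
      rw [eq_div_iff hd]
      linear_combination h3
    rw [h5]
    refine F.div_mem (F.neg_mem (F.sum_mem fun m hm => F.mul_mem (hL m (Finset.ne_of_mem_erase hm)) ?_)) ?_
    · exact F.sub_mem (hz _ _) (F.mul_mem (hz _ _) (hy _ _))
    · exact F.sub_mem (hz _ _) (F.mul_mem (hz _ _) (hy _ _))
  · refine ⟨l, fun F hF hy hz hcF hL => hF P hP0 (fun i => ?_) _ ?_⟩
    · have hAF : ∀ a ∈ (Finset.univ : Finset (Fin p)), A a ∈ F := fun a _ =>
        F.sum_mem fun m hm => F.mul_mem (hL m (Finset.ne_of_mem_erase hm)) (hy _ _)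
      have hBF : ∀ a ∈ (Finset.univ : Finset (Fin p)), B a ∈ F := fun a _ =>
        F.sum_mem fun m hm => F.mul_mem (hL m (Finset.ne_of_mem_erase hm)) (hz _ _)
      have h1 := lift61 F Finset.univ A (fun a => y a l) hAF fun a _ => hy a l
      have h2 := lift61 F Finset.univ B (fun a => z a l) hBF fun a _ => hz a l
      have h3 : C c * ∏ b, (C (B b) + X * C (z b l)) ∈ Polynomial.lifts F.subtype :=
        mul_mem ⟨C ⟨c, hcF⟩, by simp⟩ h2
      rw [Polynomial.lifts_iff_coeff_lifts] at h1 h3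
      rw [hP, Polynomial.coeff_sub]
      obtain ⟨u1, hu1⟩ := h1 i
      obtain ⟨u2, hu2⟩ := h3 i
      rw [← hu1, ← hu2]
      exact F.sub_mem u1.2 u2.2
    · rw [heval, sub_eq_zero]
      have h1 : ∀ a, A a + L l * y a l = dt L (y a) := fun a => (hsplit _).symm
      have h2 : ∀ a, B a + L l * z a l = dt L (z a) := fun a => (hsplit _).symm
      simp only [h1, h2]
      exact h

private theorem twin_aux61 {K : Type} [Field K] [CharZero K] {n q : ℕ} (V G : Finset (Fin q)) (p : ℕ) (hp : 1 ≤ p)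
    (hVG : Disjoint V G) (h : 2 * p * n + 2 ≤ 2 * G.card + V.card) (a : Fin q × Fin (n + 1) → K)
    (ha : AlgebraicIndependent ℤ a) (y z : Fin p → Fin (n + 1) → K) (c : K) (hc : c ≠ 0) (s t : Fin p → Fin (n + 1))
    (hs : ∀ i, y i (s i) = 1) (ht : ∀ i, z i (t i) = 1)
    (hne : ∀ a b, ∃ s t, y a s * z b t ≠ y a t * z b s)
    (hG : ∀ g ∈ G, (∃ b, dt (fun j => a (g, j)) (y b) = 0) ∧ ∃ b, dt (fun j => a (g, j)) (z b) = 0)
    (hV : ∀ j ∈ V, ∏ b, dt (fun l => a (j, l)) (y b) = c * ∏ b, dt (fun l => a (j, l)) (z b)) : False := by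
  classical
  -- the two dependent coordinates of the forms of `G`
  have hG' : ∀ g, ∃ u v : Fin (n + 1), g ∈ G → u ≠ v ∧ ∀ F : Subfield K, (∀ a m, y a m ∈ F) → (∀ a m, z a m ∈ F) →
      (∀ m, m ≠ u → m ≠ v → a (g, m) ∈ F) → a (g, u) ∈ F ∧ a (g, v) ∈ F := by
    intro g
    by_cases hg : g ∈ G
    · obtain ⟨⟨b, hb⟩, b', hb'⟩ := hG g hg
      obtain ⟨u, v, huv⟩ := hne b b'
      refine ⟨u, v, fun _ => ⟨?_, fun F hy hz hL => ?_⟩⟩
      · rintro rfl
        exact huv rfl
      · exact two61 F (fun j => a (g, j)) (y b) (z b') u v huv (hy b) (hz b') hb hb' hL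
    · exact ⟨0, 0, fun h => absurd h hg⟩
  choose u v huv using hG'
  -- the dependent coordinate of the forms of `V`
  have hV' : ∀ j, ∃ w : Fin (n + 1), j ∈ V → ∀ F : Subfield K,
      (∀ p : K[X], p ≠ 0 → (∀ i, p.coeff i ∈ F) → ∀ z, p.eval z = 0 → z ∈ F) → (∀ a m, y a m ∈ F) → (∀ a m, z a m ∈ F) →
      c ∈ F → (∀ m, m ≠ w → a (j, m) ∈ F) → a (j, w) ∈ F := by
    intro j
    by_cases hj : j ∈ V
    · have h0 := hs ⟨0, hp⟩
      obtain ⟨w, hw⟩ := one61 (fun l => a (j, l)) y z c hc ⟨0, hp⟩ (s ⟨0, hp⟩) h0 (fun b => by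
        by_contra hcon
        push Not at hcon
        obtain ⟨s', t', hst⟩ := hne ⟨0, hp⟩ b
        apply hst
        rw [hcon s', hcon t']
        ring) (hV j hj)
      exact ⟨w, fun _ => hw⟩
    · exact ⟨0, fun h => absurd h hj⟩
  choose w hw using hV'
  -- the set of dependent coordinates
  obtain ⟨R, hR⟩ : ∃ R : Finset (Fin q × Fin (n + 1)), R = (G.image fun g => (g, u g)) ∪ (G.image fun g => (g, v g)) ∪
      V.image fun j => (j, w j) := ⟨_, rfl⟩
  have hcard : R.card = 2 * G.card + V.card := by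
    rw [hR, Finset.card_union_of_disjoint, Finset.card_union_of_disjoint, Finset.card_image_of_injective,
      Finset.card_image_of_injective, Finset.card_image_of_injective]
    · ring
    · exact fun i j hij => (Prod.mk.inj hij).1
    · exact fun i j hij => (Prod.mk.inj hij).1
    · exact fun i j hij => (Prod.mk.inj hij).1
    · rw [Finset.disjoint_left]
      intro x hx hx'
      obtain ⟨g, hg, rfl⟩ := Finset.mem_image.1 hx
      obtain ⟨g', hg', h'⟩ := Finset.mem_image.1 hx'
      obtain ⟨rfl, h2⟩ := Prod.mk.inj h'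
      exact (huv g' hg').1 h2.symm
    · rw [Finset.disjoint_left]
      intro x hx hx'
      obtain ⟨j, hj, rfl⟩ := Finset.mem_image.1 hx'
      rw [Finset.mem_union, Finset.mem_image, Finset.mem_image] at hx
      rcases hx with ⟨g, hg, h'⟩ | ⟨g, hg, h'⟩
      · have := (Prod.mk.inj h').1
        subst this
        exact Finset.disjoint_left.1 hVG hj hg
      · have := (Prod.mk.inj h').1
        subst this
        exact Finset.disjoint_left.1 hVG hj hg
  -- the generators
  obtain ⟨T, hT⟩ : ∃ T : Finset K, T = (Finset.univ.image fun x : Fin p × Fin n => y x.1 ((s x.1).succAbove x.2)) ∪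
      (Finset.univ.image fun x : Fin p × Fin n => z x.1 ((t x.1).succAbove x.2)) ∪ {c} ∪ Rᶜ.image a := ⟨_, rfl⟩
  have hTc : T.card ≤ p * n + p * n + 1 + (q * (n + 1) - R.card) := by
    rw [hT]
    have e1 : (Finset.univ.image fun x : Fin p × Fin n => y x.1 ((s x.1).succAbove x.2)).card ≤ p * n := by
      refine Finset.card_image_le.trans ?_
      rw [Finset.card_univ, Fintype.card_prod, Fintype.card_fin, Fintype.card_fin]
    have e2 : (Finset.univ.image fun x : Fin p × Fin n => z x.1 ((t x.1).succAbove x.2)).card ≤ p * n := by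
      refine Finset.card_image_le.trans ?_
      rw [Finset.card_univ, Fintype.card_prod, Fintype.card_fin, Fintype.card_fin]
    have e3 : (Rᶜ.image a).card ≤ q * (n + 1) - R.card := by
      refine Finset.card_image_le.trans ?_
      rw [Finset.card_compl, Fintype.card_prod, Fintype.card_fin, Fintype.card_fin]
    refine (Finset.card_union_le _ _).trans (add_le_add ((Finset.card_union_le _ _).trans (add_le_add
      ((Finset.card_union_le _ _).trans (add_le_add e1 e2)) ?_)) e3)
    rw [Finset.card_singleton]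
  obtain ⟨F, hTF, hF, hcount⟩ := acl61 (T : Set K)
  have hTF' : ∀ x ∈ T, x ∈ F := fun x hx => hTF hx
  have hyF : ∀ b m, y b m ∈ F := by
    intro b m
    by_cases hm : m = s b
    · rw [hm, hs]
      exact F.one_mem
    · obtain ⟨m', rfl⟩ := Fin.exists_succAbove_eq hm
      apply hTF'
      rw [hT, Finset.mem_union, Finset.mem_union, Finset.mem_union]
      exact Or.inl (Or.inl (Or.inl (Finset.mem_image.2 ⟨(b, m'), Finset.mem_univ _, rfl⟩)))
  have hzF : ∀ b m, z b m ∈ F := by
    intro b m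
    by_cases hm : m = t b
    · rw [hm, ht]
      exact F.one_mem
    · obtain ⟨m', rfl⟩ := Fin.exists_succAbove_eq hm
      apply hTF'
      rw [hT, Finset.mem_union, Finset.mem_union, Finset.mem_union]
      exact Or.inl (Or.inl (Or.inr (Finset.mem_image.2 ⟨(b, m'), Finset.mem_univ _, rfl⟩)))
  have hcF : c ∈ F := by
    apply hTF'
    rw [hT, Finset.mem_union, Finset.mem_union]
    exact Or.inl (Or.inr (Finset.mem_singleton_self c))
  have haR : ∀ x, x ∉ R → a x ∈ F := by
    intro x hx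
    apply hTF'
    rw [hT, Finset.mem_union]
    exact Or.inr (Finset.mem_image_of_mem a (Finset.mem_compl.2 hx))
  have hGF : ∀ g ∈ G, ∀ m, m ≠ u g → m ≠ v g → a (g, m) ∈ F := by
    intro g hg m h1 h2
    apply haR
    intro hx
    rw [hR, Finset.mem_union, Finset.mem_union, Finset.mem_image, Finset.mem_image, Finset.mem_image] at hx
    rcases hx with (⟨g', _, h'⟩ | ⟨g', _, h'⟩) | ⟨j, hj, h'⟩
    · obtain ⟨rfl, h3⟩ := Prod.mk.inj h'
      exact h1 h3.symm
    · obtain ⟨rfl, h3⟩ := Prod.mk.inj h'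
      exact h2 h3.symm
    · have := (Prod.mk.inj h').1
      subst this
      exact Finset.disjoint_left.1 hVG hj hg
  have hVF : ∀ j ∈ V, ∀ m, m ≠ w j → a (j, m) ∈ F := by
    intro j hj m h1
    apply haR
    intro hx
    rw [hR, Finset.mem_union, Finset.mem_union, Finset.mem_image, Finset.mem_image, Finset.mem_image] at hx
    rcases hx with (⟨g, hg, h'⟩ | ⟨g, hg, h'⟩) | ⟨j', _, h'⟩
    · have := (Prod.mk.inj h').1
      subst this
      exact Finset.disjoint_left.1 hVG hj hg
    · have := (Prod.mk.inj h').1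
      subst this
      exact Finset.disjoint_left.1 hVG hj hg
    · obtain ⟨rfl, h3⟩ := Prod.mk.inj h'
      exact h1 h3.symm
  have hall : ∀ x, a x ∈ F := by
    rintro ⟨i, m⟩
    by_cases hi : i ∈ G
    · have h1 := (huv i hi).2 F hyF hzF (hGF i hi)
      by_cases h2 : m = u i
      · rw [h2]; exact h1.1
      · by_cases h3 : m = v i
        · rw [h3]; exact h1.2
        · exact hGF i hi m h2 h3
    · by_cases hi' : i ∈ V
      · by_cases h2 : m = w i
        · rw [h2]
          exact hw i hi' F hF hyF hzF hcF (hVF i hi')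
        · exact hVF i hi' m h2
      · apply haR
        intro hx
        rw [hR, Finset.mem_union, Finset.mem_union, Finset.mem_image, Finset.mem_image, Finset.mem_image] at hx
        rcases hx with (⟨g, hg, h'⟩ | ⟨g, hg, h'⟩) | ⟨j, hj, h'⟩
        · exact hi ((Prod.mk.inj h').1 ▸ hg)
        · exact hi ((Prod.mk.inj h').1 ▸ hg)
        · exact hi' ((Prod.mk.inj h').1 ▸ hj)
  have h1 := hcount _ a ha hall
  rw [Set.encard_coe_eq_coe_finsetCard, Fintype.card_prod, Fintype.card_fin, Fintype.card_fin] at h1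
  have h2 : q * (n + 1) ≤ T.card := by exact_mod_cast h1
  have h3 : R.card ≤ q * (n + 1) := by
    have := Finset.card_le_univ R
    rwa [Fintype.card_prod, Fintype.card_fin, Fintype.card_fin] at this
  have h4 : 2 * p * n = p * n + p * n := by ring
  omega

/-- Generic linear forms admit no twins. -/
theorem not_twin {K : Type} [Field K] {n q : ℕ} (V G : Finset (Fin q)) (p : ℕ) (hp : 1 ≤ p) (hVG : Disjoint V G)
    (h : 2 * p * n + 2 ≤ 2 * G.card + V.card) (a : Fin q × Fin (n + 1) → K) (ha : AlgebraicIndependent ℤ a) :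
    ¬ Twin V G p fun i j => a (i, j) := by
  classical
  rintro ⟨y, z, c, hc, hne, hG, hV⟩
  have : CharZero K := by
    have h1 : Function.Injective (algebraMap ℤ K) := ha.algebraMap_injective
    exact ⟨fun m k hmk => by
      have h2 : algebraMap ℤ K m = algebraMap ℤ K k := by simpa using hmk
      exact_mod_cast h1 h2⟩
  have hy0 : ∀ i, ∃ s, y i s ≠ 0 := by
    intro i
    by_contra hcon
    push Not at hcon
    obtain ⟨s, t, hst⟩ := hne i i
    apply hst
    rw [hcon s, hcon t, zero_mul, zero_mul]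
  have hz0 : ∀ i, ∃ s, z i s ≠ 0 := by
    intro i
    by_contra hcon
    push Not at hcon
    obtain ⟨s, t, hst⟩ := hne i i
    apply hst
    rw [hcon s, hcon t, mul_zero, mul_zero]
  choose s hs using hy0
  choose t ht using hz0
  have hdt : ∀ (L x : Fin (n + 1) → K) (b : K), dt L (fun m => x m / b) = dt L x / b := by
    intro L x b
    unfold dt
    rw [Finset.sum_div]
    exact Finset.sum_congr rfl fun m _ => (mul_div_assoc _ _ _).symm
  refine twin_aux61 V G p hp hVG h a ha (fun i m => y i m / y i (s i)) (fun i m => z i m / z i (t i))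
    (c * (∏ i, z i (t i)) / ∏ i, y i (s i)) ?_ s t (fun i => div_self (hs i)) (fun i => div_self (ht i)) ?_ ?_ ?_
  · exact div_ne_zero (mul_ne_zero hc (Finset.prod_ne_zero_iff.2 fun i _ => ht i))
      (Finset.prod_ne_zero_iff.2 fun i _ => hs i)
  · intro i j
    obtain ⟨s', t', hst⟩ := hne i j
    refine ⟨s', t', fun h' => hst ?_⟩
    have h1 := hs i
    have h2 := ht j
    field_simp at h'
    exact h'
  · intro g hg
    obtain ⟨h1, h2⟩ := hG g hg
    obtain ⟨b, -, hb⟩ := Finset.prod_eq_zero_iff.1 h1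
    obtain ⟨b', -, hb'⟩ := Finset.prod_eq_zero_iff.1 h2
    exact ⟨⟨b, by rw [hdt, hb, zero_div]⟩, ⟨b', by rw [hdt, hb', zero_div]⟩⟩
  · intro j hj
    simp only [hdt, Finset.prod_div_distrib]
    rw [hV j hj]
    have h1 : ∏ i, y i (s i) ≠ 0 := Finset.prod_ne_zero_iff.2 fun i _ => hs i
    have h2 : ∏ i, z i (t i) ≠ 0 := Finset.prod_ne_zero_iff.2 fun i _ => ht i
    field_simp

end Pool.Agent.FIN
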