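import Pool.Agent.Helper61.FIN.TwinX
import Pool.Agent.Helper61.GS.Elim

/-!
# FIN, block G1 for a subvariety `X` of `P^N`: linear forms with twins on `X` lie on a hypersurface
-/

set_option autoImplicit false

namespace Pool.Agent.FIN

open Pool.Agent.GS MvPolynomial

universe u

/-- the unknowns -/
private inductive Un61 (n p : ℕ) : Type
  | y (a : Fin p) (j : Fin (n + 1))
  | z (a : Fin p) (j : Fin (n + 1))
  | c
  | d
  | m (a b : Fin p) (s t : Fin (n + 1))

private noncomputable def py61 (k : Type u) [Field k] {N q p : ℕ} (g : Fin q) (a : Fin p) :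
    MvPolynomial ((Fin q × Fin (N + 1)) ⊕ Un61 N p) k :=
  ∑ j, X (Sum.inl (g, j)) * X (Sum.inr (Un61.y a j))

private noncomputable def pz61 (k : Type u) [Field k] {N q p : ℕ} (g : Fin q) (a : Fin p) :
    MvPolynomial ((Fin q × Fin (N + 1)) ⊕ Un61 N p) k :=
  ∑ j, X (Sum.inl (g, j)) * X (Sum.inr (Un61.z a j))

private noncomputable def mi61 (k : Type u) [Field k] {N q p : ℕ} (a b : Fin p) :
    MvPolynomial ((Fin q × Fin (N + 1)) ⊕ Un61 N p) k :=
  ∑ s, ∑ t, X (Sum.inr (Un61.m a b s t)) *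
    (X (Sum.inr (Un61.y a s)) * X (Sum.inr (Un61.z b t)) - X (Sum.inr (Un61.y a t)) * X (Sum.inr (Un61.z b s))) - 1

private theorem py61_aeval {k K : Type u} [Field k] [Field K] [Algebra k K] {N q p : ℕ} (g : Fin q) (i : Fin p)
    (a : Fin q × Fin (N + 1) → K) (b : Un61 N p → K) :
    aeval (Sum.elim a b) (py61 k g i) = dt (fun j => a (g, j)) (fun j => b (Un61.y i j)) := by
  unfold py61 dt
  rw [map_sum]
  refine Finset.sum_congr rfl fun j _ => ?_
  rw [map_mul, aeval_X, aeval_X]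
  rfl

private theorem pz61_aeval {k K : Type u} [Field k] [Field K] [Algebra k K] {N q p : ℕ} (g : Fin q) (i : Fin p)
    (a : Fin q × Fin (N + 1) → K) (b : Un61 N p → K) :
    aeval (Sum.elim a b) (pz61 k g i) = dt (fun j => a (g, j)) (fun j => b (Un61.z i j)) := by
  unfold pz61 dt
  rw [map_sum]
  refine Finset.sum_congr rfl fun j _ => ?_
  rw [map_mul, aeval_X, aeval_X]
  rfl

private theorem mi61_aeval {k K : Type u} [Field k] [Field K] [Algebra k K] {N q p : ℕ} (i j : Fin p)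
    (a : Fin q × Fin (N + 1) → K) (b : Un61 N p → K) : aeval (Sum.elim a b) (mi61 k (q := q) i j) =
      ∑ s, ∑ t, b (Un61.m i j s t) * (b (Un61.y i s) * b (Un61.z j t) - b (Un61.y i t) * b (Un61.z j s)) - 1 := by
  unfold mi61
  rw [map_sub, map_one, map_sum]
  congr 1
  refine Finset.sum_congr rfl fun s _ => ?_
  rw [map_sum]
  refine Finset.sum_congr rfl fun t _ => ?_
  simp only [map_mul, map_sub, aeval_X, Sum.elim_inr]

/-- the system of equations -/
private def sys61 {k : Type u} [Field k] {N q : ℕ} (I : Set (MvPolynomial (Fin (N + 1)) k)) (V G : Finset (Fin q)) (p : ℕ) :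
    Set (MvPolynomial ((Fin q × Fin (N + 1)) ⊕ Un61 N p) k) :=
  {f | ∃ g ∈ G, f = ∏ a, py61 k g a} ∪ {f | ∃ g ∈ G, f = ∏ a, pz61 k g a} ∪
    {f | ∃ j ∈ V, f = ∏ a, py61 k j a - X (Sum.inr Un61.c) * ∏ a, pz61 k j a} ∪
    {X (Sum.inr Un61.c) * X (Sum.inr Un61.d) - 1} ∪ {f | ∃ a b, f = mi61 k a b} ∪
    {f | ∃ a, ∃ e ∈ I, f = rename (fun j => Sum.inr (Un61.y a j)) e} ∪
    {f | ∃ a, ∃ e ∈ I, f = rename (fun j => Sum.inr (Un61.z a j)) e}

/-- Linear forms with twins on `X` lie on a hypersurface. -/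
theorem twinx_phi {k : Type u} [Field k] {N n q : ℕ} (I : Set (MvPolynomial (Fin (N + 1)) k)) (hD : Dim k I n)
    (V G : Finset (Fin q)) (p : ℕ) (hp : 1 ≤ p) (hVG : Disjoint V G) (h : 2 * p * n + 2 ≤ 2 * G.card + V.card) :
    ∃ Φ : MvPolynomial (Fin q × Fin (N + 1)) k, Φ ≠ 0 ∧
      ∀ (K : Type u) [Field K] [Algebra k K] (ℓ : Fin q → Fin (N + 1) → K), TwinX I V G p ℓ →
        aeval (fun p : Fin q × Fin (N + 1) => ℓ p.1 p.2) Φ = 0 := by
  classical
  obtain ⟨Φ, hΦ, hΦ'⟩ := elim (sys61 I V G p) (by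
    intro K _ _ a b ha hab
    refine not_twinx I hD V G p hp hVG h (fun i j => a (i, j)) ha ⟨fun i j => b (Un61.y i j), fun i j => b (Un61.z i j),
      b Un61.c, ?_, ?_, ?_, ?_, ?_, ?_⟩
    · intro h0
      have h1 := hab _ (Or.inl (Or.inl (Or.inl (Or.inr rfl))))
      rw [map_sub, map_mul, map_one, aeval_X, aeval_X] at h1
      have h2 : b Un61.c * b Un61.d - 1 = 0 := h1
      rw [h0, zero_mul, zero_sub, neg_eq_zero] at h2
      exact one_ne_zero h2
    · intro i e he
      have h1 := hab _ (Or.inl (Or.inr ⟨i, e, he, rfl⟩))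
      rw [aeval_rename] at h1
      exact h1
    · intro i e he
      have h1 := hab _ (Or.inr ⟨i, e, he, rfl⟩)
      rw [aeval_rename] at h1
      exact h1
    · intro i j
      by_contra hcon
      push Not at hcon
      have h1 := hab _ (Or.inl (Or.inl (Or.inr ⟨i, j, rfl⟩)))
      rw [mi61_aeval, Finset.sum_eq_zero (fun s _ => Finset.sum_eq_zero fun t _ => by rw [hcon s t, sub_self, mul_zero]),
        zero_sub, neg_eq_zero] at h1
      exact one_ne_zero h1
    · intro g hg
      have h1 := hab _ (Or.inl (Or.inl (Or.inl (Or.inl (Or.inl (Or.inl ⟨g, hg, rfl⟩))))))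
      have h2 := hab _ (Or.inl (Or.inl (Or.inl (Or.inl (Or.inl (Or.inr ⟨g, hg, rfl⟩))))))
      rw [map_prod, Finset.prod_congr rfl fun i _ => py61_aeval g i _ _] at h1
      rw [map_prod, Finset.prod_congr rfl fun i _ => pz61_aeval g i _ _] at h2
      exact ⟨h1, h2⟩
    · intro j hj
      have h1 := hab _ (Or.inl (Or.inl (Or.inl (Or.inl (Or.inr ⟨j, hj, rfl⟩)))))
      rw [map_sub, map_mul, map_prod, map_prod, aeval_X, Finset.prod_congr rfl fun i _ => py61_aeval j i _ _,
        Finset.prod_congr rfl fun i _ => pz61_aeval j i _ _, sub_eq_zero] at h1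
      exact h1)
  refine ⟨Φ, hΦ, fun K _ _ ℓ hT => ?_⟩
  obtain ⟨y, z, c, hc, hyX, hzX, hne, hG, hV⟩ := hT
  choose s t hst using hne
  refine hΦ' K (fun p => ℓ p.1 p.2) (fun x : Un61 N p => match x with
    | Un61.y a j => y a j
    | Un61.z a j => z a j
    | Un61.c => c
    | Un61.d => c⁻¹
    | Un61.m a b s' t' => if s' = s a b then (if t' = t a b then
        (y a (s a b) * z b (t a b) - y a (t a b) * z b (s a b))⁻¹ else 0) else 0) ?_
  rintro f ((((((⟨g, hg, rfl⟩ | ⟨g, hg, rfl⟩) | ⟨j, hj, rfl⟩) | hf) | ⟨i, j, rfl⟩) | ⟨i, e, he, rfl⟩) | ⟨i, e, he, rfl⟩)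
  · rw [map_prod, Finset.prod_congr rfl fun i _ => py61_aeval g i _ _]
    exact (hG g hg).1
  · rw [map_prod, Finset.prod_congr rfl fun i _ => pz61_aeval g i _ _]
    exact (hG g hg).2
  · rw [map_sub, map_mul, map_prod, map_prod, aeval_X, Finset.prod_congr rfl fun i _ => py61_aeval j i _ _,
      Finset.prod_congr rfl fun i _ => pz61_aeval j i _ _, sub_eq_zero]
    exact hV j hj
  · rw [Set.mem_singleton_iff] at hf
    rw [hf, map_sub, map_mul, map_one, aeval_X, aeval_X]
    show c * c⁻¹ - 1 = 0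
    rw [mul_inv_cancel₀ hc, sub_self]
  · rw [mi61_aeval]
    show ∑ s', ∑ t', (if s' = s i j then (if t' = t i j then
        (y i (s i j) * z j (t i j) - y i (t i j) * z j (s i j))⁻¹ else 0) else 0) *
        (y i s' * z j t' - y i t' * z j s') - 1 = 0
    rw [Finset.sum_eq_single (s i j), Finset.sum_eq_single (t i j), if_pos rfl, if_pos rfl,
      inv_mul_cancel₀ (sub_ne_zero.2 (hst i j)), sub_self]
    · intro t' _ ht'
      rw [if_pos rfl, if_neg ht', zero_mul]
    · intro h; exact absurd (Finset.mem_univ _) h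
    · intro s' _ hs'
      refine Finset.sum_eq_zero fun t' _ => ?_
      rw [if_neg hs', zero_mul]
    · intro h; exact absurd (Finset.mem_univ _) h
  · rw [aeval_rename]
    exact hyX i e he
  · rw [aeval_rename]
    exact hzX i e he

end Pool.Agent.FIN
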